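import Mathlib
import Pool.Agent.Q117.FB.Basic

set_option autoImplicit false

open Q117.FB

namespace Pool.Agent.Results.MP_0f31da_co.CliqueTail

/-- (1) The inequality `f(G) ≥ ⌈b(G) / l̄⌉` fails for some connected graph; (2) more precisely the
ratio `f(G) l̄ / b(G)` gets arbitrarily close to `1/2` over connected graphs; (3) and it is
always at least `1/2`, so that `1/2` is the optimal constant. -/
theorem result :
    (¬ ∀ (V : Type) [Fintype V] (G : SimpleGraph V), G.Connected → 2 ≤ Fintype.card V →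
      ⌈(bipNum G : ℝ) / avgLocInd G⌉ ≤ (forestNum G : ℤ)) ∧
    (∀ ε : ℝ, 0 < ε → ∃ (V : Type) (_ : Fintype V) (G : SimpleGraph V), G.Connected ∧
      2 ≤ Fintype.card V ∧ (forestNum G : ℝ) * avgLocInd G < (1 / 2 + ε) * bipNum G) ∧
    (∀ (V : Type) [Fintype V] (G : SimpleGraph V), G.Connected → 2 ≤ Fintype.card V →
      1 / 2 * (bipNum G : ℝ) ≤ (forestNum G : ℝ) * avgLocInd G) := by
  have h2 : ∀ ε : ℝ, 0 < ε → ∃ (V : Type) (_ : Fintype V) (G : SimpleGraph V), G.Connected ∧
      2 ≤ Fintype.card V ∧ (forestNum G : ℝ) * avgLocInd G < (1 / 2 + ε) * bipNum G := by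
    intro ε hε
    obtain ⟨M, N, h⟩ := exists_ratio ε hε
    refine ⟨_, inferInstance, CG M N, CG_connected M N, ?_, h⟩
    rw [Fintype.card_sum, Fintype.card_prod, Fintype.card_bool, Fintype.card_fin,
      Fintype.card_fin]
    omega
  refine ⟨?_, h2, ?_⟩
  · intro H
    obtain ⟨V, hV, G, hc, hn, hlt⟩ := h2 (1 / 2) (by norm_num)
    have h1 := H V G hc hn
    have h3 := one_le_avg hc hn
    have hpos : 0 < avgLocInd G := by linarith
    have h4 : (bipNum G : ℝ) / avgLocInd G ≤ (forestNum G : ℝ) := by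
      have := (Int.ceil_le.1 h1)
      exact_mod_cast this
    rw [div_le_iff₀ hpos] at h4
    linarith
  · intro V _ G hc hn
    have h3 := one_le_avg hc hn
    have h4 : (bipNum G : ℝ) ≤ 2 * (forestNum G : ℝ) := by
      exact_mod_cast bip_le_two_forest (G := G)
    have h5 : (0 : ℝ) ≤ (forestNum G : ℝ) := by positivity
    nlinarith

end Pool.Agent.Results.MP_0f31da_co.CliqueTail
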